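import Pool.Agent.Lib.MP_65a179_nt.Defs

/-!
# Counting progressions with a given middle term
-/

namespace Pool.Agent.Lib.MP_65a179_nt

open Finset

/-- coprime pairs `(b, c)` with `b^3 c^2 ∣ n`. -/
def pairs (n : ℕ) : Finset (ℕ × ℕ) :=
  (n.divisors ×ˢ n.divisors).filter (fun q => Nat.Coprime q.1 q.2 ∧ q.1 ^ 3 * q.2 ^ 2 ∣ n)

lemma mem_pairs {n : ℕ} (hn : n ≠ 0) {q : ℕ × ℕ} :
    q ∈ pairs n ↔ Nat.Coprime q.1 q.2 ∧ q.1 ^ 3 * q.2 ^ 2 ∣ n := by
  unfold pairs
  simp only [mem_filter, mem_product, Nat.mem_divisors]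
  constructor
  · exact fun h => h.2
  · intro h
    refine ⟨⟨⟨?_, hn⟩, ⟨?_, hn⟩⟩, h⟩
    · exact Dvd.dvd.trans (Dvd.intro (q.1 ^ 2 * q.2 ^ 2) (by ring)) h.2
    · exact Dvd.dvd.trans (Dvd.intro (q.1 ^ 3 * q.2) (by ring)) h.2

lemma card_pairs_mul {m k : ℕ} (hm : m ≠ 0) (hk : k ≠ 0) (hc : Nat.Coprime m k) :
    (pairs (m * k)).card ≤ (pairs m).card * (pairs k).card := by
  rw [← card_product]
  have hmk : m * k ≠ 0 := mul_ne_zero hm hk
  refine card_le_card_of_injOn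
    (fun q => ((Nat.gcd q.1 m, Nat.gcd q.2 m), (Nat.gcd q.1 k, Nat.gcd q.2 k))) ?_ ?_
  · intro q hq
    rw [mem_coe, mem_pairs hmk] at hq
    obtain ⟨h1, h2⟩ := hq
    have key : ∀ a b : ℕ, Nat.Coprime a b → q.1 ^ 3 * q.2 ^ 2 ∣ a * b →
        (Nat.gcd q.1 a) ^ 3 * (Nat.gcd q.2 a) ^ 2 ∣ a := by
      intro a b hab hd
      have h3 : (Nat.gcd q.1 a) ^ 3 * (Nat.gcd q.2 a) ^ 2 ∣ a * b :=
        Dvd.dvd.trans (mul_dvd_mul (pow_dvd_pow_of_dvd (Nat.gcd_dvd_left _ _) 3)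
          (pow_dvd_pow_of_dvd (Nat.gcd_dvd_left _ _) 2)) hd
      refine Nat.Coprime.dvd_of_dvd_mul_right ?_ h3
      apply Nat.Coprime.mul_left
      · exact Nat.Coprime.pow_left 3 (Nat.Coprime.coprime_dvd_left (Nat.gcd_dvd_right _ _) hab)
      · exact Nat.Coprime.pow_left 2 (Nat.Coprime.coprime_dvd_left (Nat.gcd_dvd_right _ _) hab)
    have cop : ∀ a : ℕ, Nat.Coprime (Nat.gcd q.1 a) (Nat.gcd q.2 a) := fun a =>
      Nat.Coprime.coprime_dvd_left (Nat.gcd_dvd_left _ _)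
        (Nat.Coprime.coprime_dvd_right (Nat.gcd_dvd_left _ _) h1)
    simp only [coe_product, Set.mem_prod, mem_coe]
    rw [mem_pairs hm, mem_pairs hk]
    exact ⟨⟨cop m, key m k hc h2⟩, ⟨cop k, key k m hc.symm (by rwa [mul_comm k m])⟩⟩
  · intro q hq q' hq' h
    rw [mem_coe, mem_pairs hmk] at hq hq'
    simp only [Prod.mk.injEq] at h
    have d1 : ∀ q : ℕ × ℕ, q.1 ^ 3 * q.2 ^ 2 ∣ m * k → q.1 ∣ m * k ∧ q.2 ∣ m * k := fun q h =>
      ⟨Dvd.dvd.trans (Dvd.intro (q.1 ^ 2 * q.2 ^ 2) (by ring)) h,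
       Dvd.dvd.trans (Dvd.intro (q.1 ^ 3 * q.2) (by ring)) h⟩
    have e : ∀ a : ℕ, a ∣ m * k → a = Nat.gcd a m * Nat.gcd a k := by
      intro a ha
      rw [← Nat.Coprime.gcd_mul a hc]
      exact (Nat.gcd_eq_left ha).symm
    ext
    · rw [e q.1 (d1 q hq.2).1, e q'.1 (d1 q' hq'.2).1, h.1.1, h.2.1]
    · rw [e q.2 (d1 q hq.2).2, e q'.2 (d1 q' hq'.2).2, h.1.2, h.2.2]

lemma card_pairs_prime_pow {p : ℕ} (hp : p.Prime) (e : ℕ) :
    (pairs (p ^ e)).card ≤ 1 + e / 2 + e / 3 := by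
  have hsub : pairs (p ^ e) ⊆
      ((range (e / 2 + 1)).image (fun j => ((1 : ℕ), p ^ j))) ∪
        ((range (e / 3)).image (fun i => (p ^ (i + 1), (1 : ℕ)))) := by
    intro q hq
    rw [mem_pairs (pow_ne_zero e hp.ne_zero)] at hq
    obtain ⟨h1, h2⟩ := hq
    have d1 : q.1 ∣ p ^ e := Dvd.dvd.trans (Dvd.intro (q.1 ^ 2 * q.2 ^ 2) (by ring)) h2
    have d2 : q.2 ∣ p ^ e := Dvd.dvd.trans (Dvd.intro (q.1 ^ 3 * q.2) (by ring)) h2
    obtain ⟨i, -, hi⟩ := (Nat.dvd_prime_pow hp).1 d1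
    obtain ⟨j, -, hj⟩ := (Nat.dvd_prime_pow hp).1 d2
    rw [hi, hj, ← pow_mul, ← pow_mul, ← pow_add, Nat.pow_dvd_pow_iff_le_right hp.one_lt] at h2
    rw [mem_union, mem_image, mem_image]
    rcases Nat.eq_zero_or_pos i with h0 | h0
    · left
      refine ⟨j, by rw [mem_range]; omega, ?_⟩
      ext
      · simp [hi, h0]
      · simp [hj]
    · right
      have hj0 : j = 0 := by
        by_contra hj0
        rw [hi, hj] at h1
        have := (Nat.coprime_pow_left_iff h0 _ _).1 h1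
        have := (Nat.coprime_pow_right_iff (Nat.pos_of_ne_zero hj0) _ _).1 this
        exact hp.one_lt.ne' ((Nat.coprime_self p).1 this)
      refine ⟨i - 1, by rw [mem_range]; omega, ?_⟩
      ext
      · simp only [hi]; congr 1; omega
      · simp [hj, hj0]
  calc (pairs (p ^ e)).card ≤ _ := card_le_card hsub
    _ ≤ _ := card_union_le _ _
    _ ≤ (e / 2 + 1) + e / 3 := by
        refine add_le_add ?_ ?_
        · exact card_image_le.trans (by simp)
        · exact card_image_le.trans (by simp)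
    _ = _ := by ring

lemma cube_le (e : ℕ) : (1 + e / 2 + e / 3) ^ 3 ≤ 3 ^ e := by
  induction e using Nat.strong_induction_on with
  | _ e ih =>
    by_cases h : e < 8
    · interval_cases e <;> norm_num
    · obtain ⟨d, rfl⟩ : ∃ d, e = d + 6 := ⟨e - 6, by omega⟩
      have h1 := ih d (by omega)
      have h2 : 1 + (d + 6) / 2 + (d + 6) / 3 ≤ 9 * (1 + d / 2 + d / 3) := by omega
      calc (1 + (d + 6) / 2 + (d + 6) / 3) ^ 3 ≤ (9 * (1 + d / 2 + d / 3)) ^ 3 :=
            Nat.pow_le_pow_left h2 3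
        _ = 3 ^ 6 * (1 + d / 2 + d / 3) ^ 3 := by ring
        _ ≤ 3 ^ 6 * 3 ^ d := Nat.mul_le_mul_left _ h1
        _ = 3 ^ (d + 6) := by ring

/-- If no prime `p ≤ y` has `p^2 ∣ n`, then the number of pairs is at most
`n ^ (log 3 / (3 log y))`. -/
lemma card_pairs_le {y : ℕ} (hy : 2 ≤ y) (n : ℕ) (hn : n ≠ 0)
    (hs : ∀ p : ℕ, p.Prime → p ≤ y → ¬ p ^ 2 ∣ n) :
    ((pairs n).card : ℝ) ≤ Real.exp (Real.log n * (Real.log 3 / (3 * Real.log y))) := by
  have hly : 0 < Real.log y := Real.log_pos (by exact_mod_cast hy)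
  have hl3 : 0 < Real.log 3 := Real.log_pos (by norm_num)
  set θ := Real.log 3 / (3 * Real.log y) with hθ
  have hθ0 : 0 ≤ θ := by positivity
  induction n using Nat.recOnPosPrimePosCoprime with
  | zero => exact absurd rfl hn
  | one =>
    have := card_pairs_prime_pow Nat.prime_two 0
    simp only [pow_zero] at this
    simp only [Nat.cast_one, Real.log_one, zero_mul, Real.exp_zero]
    exact_mod_cast this
  | prime_pow p e hp he =>
    have h1 := card_pairs_prime_pow hp e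
    by_cases he2 : e < 2
    · have : (pairs (p ^ e)).card ≤ 1 := by omega
      have h2 : ((pairs (p ^ e)).card : ℝ) ≤ 1 := by exact_mod_cast this
      refine h2.trans (Real.one_le_exp (mul_nonneg (Real.log_natCast_nonneg _) hθ0))
    · have hpy : y < p := by
        by_contra hc
        exact hs p hp (by omega) (pow_dvd_pow p (by omega))
      have h3 : (pairs (p ^ e)).card ^ 3 ≤ 3 ^ e :=
        (Nat.pow_le_pow_left h1 3).trans (cube_le e)
      have h4 : ((pairs (p ^ e)).card : ℝ) ^ 3 ≤ (3 : ℝ) ^ e := by exact_mod_cast h3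
      have hlp : Real.log y ≤ Real.log p :=
        Real.log_le_log (by positivity) (by exact_mod_cast hpy.le)
      have h5 : (3 : ℝ) ^ e ≤ Real.exp (Real.log ((p ^ e : ℕ) : ℝ) * θ) ^ 3 := by
        rw [← Real.exp_nat_mul, Nat.cast_pow, Real.log_pow]
        have : (3 : ℝ) ^ e = Real.exp (e * Real.log 3) := by
          rw [Real.exp_nat_mul, Real.exp_log (by norm_num)]
        rw [this]
        apply Real.exp_le_exp.2
        have h6 : ((3 : ℕ) : ℝ) * (e * Real.log p * θ) = e * Real.log 3 * (Real.log p / Real.log y) := by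
          rw [hθ]; push_cast; field_simp
        rw [h6]
        have h7 : 1 ≤ Real.log p / Real.log y := by rw [le_div_iff₀ hly]; linarith
        have h8 : 0 ≤ (e : ℝ) * Real.log 3 := by positivity
        nlinarith
      exact le_of_pow_le_pow_left₀ (by norm_num) (Real.exp_pos _).le (h4.trans h5)
  | coprime a b ha hb hab iha ihb =>
    have ha0 : a ≠ 0 := by omega
    have hb0 : b ≠ 0 := by omega
    have h1 := card_pairs_mul ha0 hb0 hab
    have h2 := iha ha0 (fun p hp hpy hd => hs p hp hpy (Dvd.dvd.mul_right hd b))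
    have h3 := ihb hb0 (fun p hp hpy hd => hs p hp hpy (Dvd.dvd.mul_left hd a))
    have h4 : ((pairs (a * b)).card : ℝ) ≤ (pairs a).card * (pairs b).card := by exact_mod_cast h1
    refine h4.trans ?_
    rw [Nat.cast_mul, Real.log_mul (by exact_mod_cast ha0) (by exact_mod_cast hb0), add_mul,
      Real.exp_add]
    exact mul_le_mul h2 h3 (by positivity) (Real.exp_pos _).le

/-- Normal form of a progression. -/
lemma GP6.normal (G : GP6) : ∃ a b c : ℕ, 0 < a ∧ 0 < b ∧ b < c ∧ Nat.Coprime b c ∧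
    ∀ i : Fin 6, G.1 i = a * b ^ (5 - (i : ℕ)) * c ^ (i : ℕ) := by
  obtain ⟨f, hpos, r, hr, hf⟩ := G
  have hr0 : 0 < r := by linarith
  have hnum : 0 < r.num := Rat.num_pos.2 hr0
  set b := r.den with hb
  set c := r.num.toNat with hc
  have hb0 : 0 < b := r.den_pos
  have hcz : (c : ℤ) = r.num := Int.toNat_of_nonneg hnum.le
  have hrq : r = (c : ℚ) / b := by
    have : (c : ℚ) = (r.num : ℚ) := by exact_mod_cast hcz
    rw [this, hb]; exact (Rat.num_div_den r).symm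
  have hbq : (b : ℚ) ≠ 0 := by positivity
  have hcop : Nat.Coprime b c := by
    have := r.reduced
    have h2 : r.num.natAbs = c := by omega
    rw [h2] at this
    exact this.symm
  have hbc : b < c := by
    have : (b : ℚ) < c := by
      rw [hrq, lt_div_iff₀ (by positivity)] at hr
      linarith
    exact_mod_cast this
  have step : ∀ i : Fin 5, f i.succ * b = c * f i.castSucc := by
    intro i
    have := hf i
    rw [hrq] at this
    field_simp at this
    exact_mod_cast this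
  have s0 : f 1 * b = c * f 0 := step 0
  have s1 : f 2 * b = c * f 1 := step 1
  have s2 : f 3 * b = c * f 2 := step 2
  have s3 : f 4 * b = c * f 3 := step 3
  have s4 : f 5 * b = c * f 4 := step 4
  have t2 : f 2 * b ^ 2 = c ^ 2 * f 0 := by
    calc f 2 * b ^ 2 = (f 2 * b) * b := by ring
      _ = c * (f 1 * b) := by rw [s1]; ring
      _ = _ := by rw [s0]; ring
  have t3 : f 3 * b ^ 3 = c ^ 3 * f 0 := by
    calc f 3 * b ^ 3 = (f 3 * b) * b ^ 2 := by ring
      _ = c * (f 2 * b ^ 2) := by rw [s2]; ring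
      _ = _ := by rw [t2]; ring
  have t4 : f 4 * b ^ 4 = c ^ 4 * f 0 := by
    calc f 4 * b ^ 4 = (f 4 * b) * b ^ 3 := by ring
      _ = c * (f 3 * b ^ 3) := by rw [s3]; ring
      _ = _ := by rw [t3]; ring
  have t5 : f 5 * b ^ 5 = c ^ 5 * f 0 := by
    calc f 5 * b ^ 5 = (f 5 * b) * b ^ 4 := by ring
      _ = c * (f 4 * b ^ 4) := by rw [s4]; ring
      _ = _ := by rw [t4]; ring
  have hd : b ^ 5 ∣ f 0 := by
    have h1 : b ^ 5 ∣ c ^ 5 * f 0 := ⟨f 5, by rw [← t5]; ring⟩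
    exact (Nat.Coprime.pow 5 5 hcop).dvd_of_dvd_mul_left h1
  obtain ⟨a, ha⟩ := hd
  have ha0 : 0 < a := by
    have := hpos 0
    rw [ha] at this
    exact Nat.pos_of_mul_pos_left this
  refine ⟨a, b, c, ha0, hb0, hbc, hcop, ?_⟩
  intro i
  have canc : ∀ (k u v : ℕ), u * b ^ k = v * b ^ k → u = v := fun k u v h =>
    Nat.eq_of_mul_eq_mul_right (by positivity) h
  fin_cases i
  · show f 0 = a * b ^ 5 * c ^ 0
    rw [ha]; ring
  · show f 1 = a * b ^ 4 * c ^ 1
    apply canc 1; rw [pow_one, s0, ha]; ring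
  · show f 2 = a * b ^ 3 * c ^ 2
    apply canc 2; rw [t2, ha]; ring
  · show f 3 = a * b ^ 2 * c ^ 3
    apply canc 3; rw [t3, ha]; ring
  · show f 4 = a * b ^ 1 * c ^ 4
    apply canc 4; rw [t4, ha]; ring
  · show f 5 = a * b ^ 0 * c ^ 5
    apply canc 5; rw [t5, ha]; ring

/-- progressions having `n` as a middle term -/
def Mid (n : ℕ) : Set GP6 := {G | G.1 2 = n ∨ G.1 3 = n}

lemma mid_inj (n : ℕ) (hn : n ≠ 0) : ∃ φ : GP6 → ℕ × ℕ,
    (∀ G ∈ Mid n, φ G ∈ pairs n) ∧ Set.InjOn φ (Mid n) := by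
  classical
  choose a b c ha hb hbc hcop hG using GP6.normal
  have h2 : ∀ G : GP6, G.1 2 = a G * b G ^ 3 * c G ^ 2 := fun G => hG G 2
  have h3 : ∀ G : GP6, G.1 3 = a G * b G ^ 2 * c G ^ 3 := fun G => hG G 3
  have ext' : ∀ G G' : GP6, a G = a G' → b G = b G' → c G = c G' → G = G' := by
    intro G G' e1 e2 e3
    apply Subtype.ext
    funext i
    rw [hG G i, hG G' i, e1, e2, e3]
  refine ⟨fun G => if G.1 2 = n then (b G, c G) else (c G, b G), ?_, ?_⟩
  · intro G hGm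
    rw [mem_pairs hn]
    by_cases h : G.1 2 = n
    · simp only [h, if_true]
      exact ⟨hcop G, ⟨a G, by rw [← h, h2]; ring⟩⟩
    · simp only [h, if_false]
      have h' : G.1 3 = n := hGm.resolve_left h
      exact ⟨(hcop G).symm, ⟨a G, by rw [← h', h3]; ring⟩⟩
  · intro G hGm G' hGm' e
    have p1 := hb G; have p2 := hbc G; have p3 := hb G'; have p4 := hbc G'
    by_cases h : G.1 2 = n <;> by_cases h' : G'.1 2 = n <;>
      simp only [h, h', if_true, if_false, Prod.mk.injEq] at e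
    · refine ext' G G' ?_ e.1 e.2
      have := h.trans h'.symm
      rw [h2, h2, ← e.1, ← e.2, mul_assoc, mul_assoc] at this
      exact Nat.eq_of_mul_eq_mul_right (by have : 0 < c G := by omega
                                           positivity) this
    · omega
    · omega
    · refine ext' G G' ?_ e.2 e.1
      have := (hGm.resolve_left h).trans (hGm'.resolve_left h').symm
      rw [h3, h3, ← e.1, ← e.2, mul_assoc, mul_assoc] at this
      exact Nat.eq_of_mul_eq_mul_right (by have : 0 < c G := by omega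
                                           positivity) this

lemma mid_finite (n : ℕ) (hn : n ≠ 0) : (Mid n).Finite := by
  obtain ⟨φ, h1, h2⟩ := mid_inj n hn
  exact Set.Finite.of_injOn (t := (pairs n : Set (ℕ × ℕ))) (fun G hG => h1 G hG) h2
    (finite_toSet _)

lemma mid_card (n : ℕ) (hn : n ≠ 0) : (mid_finite n hn).toFinset.card ≤ (pairs n).card := by
  obtain ⟨φ, h1, h2⟩ := mid_inj n hn
  refine card_le_card_of_injOn φ ?_ ?_
  · intro G hG
    rw [mem_coe, Set.Finite.mem_toFinset] at hG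
    exact h1 G hG
  · rwa [Set.Finite.coe_toFinset]

lemma mid_ne (G : GP6) : G.1 2 < G.1 3 := by
  obtain ⟨a, b, c, ha, hb, hbc, -, hG⟩ := G.normal
  have h2 : G.1 2 = a * b ^ 3 * c ^ 2 := hG 2
  have h3 : G.1 3 = a * b ^ 2 * c ^ 3 := hG 3
  rw [h2, h3]
  have hc : 0 < c := by omega
  calc a * b ^ 3 * c ^ 2 = (a * b ^ 2 * c ^ 2) * b := by ring
    _ < (a * b ^ 2 * c ^ 2) * c := Nat.mul_lt_mul_of_pos_left hbc (by positivity)
    _ = _ := by ring

/-- the two middle terms are far apart when the smaller one has no small prime square. -/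
lemma mid_far (G : GP6) {y : ℕ} (hs : ∀ p : ℕ, p.Prime → p ≤ y → ¬ p ^ 2 ∣ G.1 2) :
    G.1 2 + y ^ 2 < G.1 3 := by
  obtain ⟨a, b, c, ha, hb, hbc, -, hG⟩ := G.normal
  have h2 : G.1 2 = a * b ^ 3 * c ^ 2 := hG 2
  have h3 : G.1 3 = a * b ^ 2 * c ^ 3 := hG 3
  have hc1 : c ≠ 1 := by omega
  have hp := Nat.minFac_prime hc1
  have hyc : y < c := by
    by_contra hcon
    refine hs c.minFac hp ((Nat.minFac_le (by omega)).trans (by omega)) ?_
    rw [h2]
    exact Dvd.dvd.mul_left (pow_dvd_pow_of_dvd (Nat.minFac_dvd c) 2) _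
  rw [h2, h3]
  have h4 : y ^ 2 < c ^ 2 := Nat.pow_lt_pow_left hyc (by norm_num)
  have h5 : 1 ≤ a * b ^ 2 := Nat.one_le_iff_ne_zero.2 (by positivity)
  calc a * b ^ 3 * c ^ 2 + y ^ 2 < a * b ^ 3 * c ^ 2 + 1 * c ^ 2 := by omega
    _ ≤ a * b ^ 3 * c ^ 2 + (a * b ^ 2) * c ^ 2 := by gcongr
    _ = (a * b ^ 2 * c ^ 2) * (b + 1) := by ring
    _ ≤ (a * b ^ 2 * c ^ 2) * c := Nat.mul_le_mul_left _ hbc
    _ = _ := by ring

/-- the sieved set in `(x, x + 8 y]`. -/
def sieved (x y : ℕ) : Finset ℕ :=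
  (Ioc x (x + 8 * y)).filter (fun n => ∀ k ∈ Icc 2 y, ¬ k ^ 2 ∣ n)

lemma sum_inv_sq (y : ℕ) : ∑ k ∈ Icc 2 y, (1 : ℝ) / (k : ℝ) ^ 2 ≤ 3 / 4 := by
  have key : ∀ m : ℕ, ∑ k ∈ Icc 2 (m + 2), (1 : ℝ) / (k : ℝ) ^ 2 ≤ 3 / 4 - 1 / (m + 2) := by
    intro m
    induction m with
    | zero => norm_num
    | succ m ih =>
      rw [show m + 1 + 2 = (m + 2) + 1 by ring, sum_Icc_succ_top (by omega)]
      have : (1 : ℝ) / ((m + 2 + 1 : ℕ) : ℝ) ^ 2 ≤ 1 / (m + 2) - 1 / ((m + 1 : ℕ) + 2) := by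
        push_cast
        rw [div_sub_div _ _ (by positivity) (by positivity), div_le_div_iff₀ (by positivity)
          (by positivity)]
        nlinarith [sq_nonneg (m : ℝ), (Nat.cast_nonneg m : (0 : ℝ) ≤ m)]
      linarith
  by_cases h : y < 2
  · rw [Icc_eq_empty (by omega)]; norm_num
  · obtain ⟨m, rfl⟩ : ∃ m, y = m + 2 := ⟨y - 2, by omega⟩
    have := key m
    have h2 : (0 : ℝ) ≤ 1 / (m + 2) := by positivity
    linarith

lemma card_multiples (x h d : ℕ) (hd : 0 < d) :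
    (((Ioc x (x + h)).filter (fun n => d ∣ n)).card : ℝ) ≤ h / d + 1 := by
  have h1 : ((Ioc x (x + h)).filter (fun n => d ∣ n)).card = (x + h) / d - x / d := by
    have a1 := Nat.Ioc_filter_dvd_card_eq_div (x + h) d
    have a2 := Nat.Ioc_filter_dvd_card_eq_div x d
    have a3 : Ioc 0 (x + h) = Ioc 0 x ∪ Ioc x (x + h) := by
      ext n; simp only [mem_Ioc, mem_union]; omega
    rw [a3, filter_union, card_union_of_disjoint] at a1
    · omega
    · apply disjoint_filter_filter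
      rw [disjoint_left]; intro n; simp only [mem_Ioc]; omega
  have h2 : (x + h) / d ≤ x / d + h / d + 1 := by
    rw [Nat.add_div hd]; split_ifs <;> omega
  have h3 : ((Ioc x (x + h)).filter (fun n => d ∣ n)).card ≤ h / d + 1 := by
    rw [h1]
    generalize (x + h) / d = u at h2 ⊢
    generalize x / d = v at h2 ⊢
    generalize h / d = w at h2 ⊢
    omega
  have h4 : (((Ioc x (x + h)).filter (fun n => d ∣ n)).card : ℝ) ≤ ((h / d : ℕ) : ℝ) + 1 := by
    exact_mod_cast h3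
  exact h4.trans (by have := Nat.cast_div_le (α := ℝ) (m := h) (n := d); linarith)

lemma card_sieved (x y : ℕ) : y ≤ (sieved x y).card := by
  have hsub : Ioc x (x + 8 * y) ⊆ sieved x y ∪
      (Icc 2 y).biUnion (fun k => (Ioc x (x + 8 * y)).filter (fun n => k ^ 2 ∣ n)) := by
    intro n hn
    rw [mem_union]
    by_cases h : ∀ k ∈ Icc 2 y, ¬ k ^ 2 ∣ n
    · left; exact mem_filter.2 ⟨hn, h⟩
    · right
      push Not at h
      obtain ⟨k, hk, hkn⟩ := h
      exact mem_biUnion.2 ⟨k, hk, mem_filter.2 ⟨hn, hkn⟩⟩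
  have h1 := (card_le_card hsub).trans ((card_union_le _ _).trans
    (Nat.add_le_add_left card_biUnion_le _))
  rw [Nat.card_Ioc, Nat.add_sub_cancel_left] at h1
  have h2 : ((8 * y : ℕ) : ℝ) ≤ (sieved x y).card +
      ∑ k ∈ Icc 2 y, (((Ioc x (x + 8 * y)).filter (fun n => k ^ 2 ∣ n)).card : ℝ) := by
    exact_mod_cast h1
  have h3 : ∑ k ∈ Icc 2 y, (((Ioc x (x + 8 * y)).filter (fun n => k ^ 2 ∣ n)).card : ℝ) ≤
      ∑ k ∈ Icc 2 y, ((8 * y : ℝ) * (1 / (k : ℝ) ^ 2) + 1) := by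
    refine sum_le_sum fun k hk => ?_
    have hk2 : 2 ≤ k := (mem_Icc.1 hk).1
    refine (card_multiples x (8 * y) (k ^ 2) (by positivity)).trans (le_of_eq ?_)
    push_cast; ring
  rw [sum_add_distrib, ← mul_sum, sum_const, Nat.card_Icc, nsmul_eq_mul, mul_one] at h3
  have h4 := sum_inv_sq y
  have h5 : ((y + 1 - 2 : ℕ) : ℝ) ≤ y := by exact_mod_cast (by omega : y + 1 - 2 ≤ y)
  have h6 : (8 * y : ℝ) * ∑ k ∈ Icc 2 y, (1 : ℝ) / (k : ℝ) ^ 2 ≤ 8 * y * (3 / 4) :=
    mul_le_mul_of_nonneg_left h4 (by positivity)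
  have h7 : (y : ℝ) ≤ (sieved x y).card := by push_cast at h2; linarith
  exact_mod_cast h7

lemma sieved_prime {x y n : ℕ} (hn : n ∈ sieved x y) (p : ℕ) (hp : p.Prime) (hpy : p ≤ y) :
    ¬ p ^ 2 ∣ n := (mem_filter.1 hn).2 p (mem_Icc.2 ⟨hp.two_le, hpy⟩)

lemma mid_disjoint {x y n m : ℕ} (hy : 8 ≤ y) (hn : n ∈ sieved x y) (hm : m ∈ sieved x y)
    (hnm : n ≠ m) (G : GP6) (h1 : G ∈ Mid n) (h2 : G ∈ Mid m) : False := by
  have a1 := mem_Ioc.1 (mem_filter.1 hn).1
  have a2 := mem_Ioc.1 (mem_filter.1 hm).1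
  have hy2 : 8 * y ≤ y ^ 2 := by nlinarith
  rcases h1 with h1 | h1 <;> rcases h2 with h2 | h2
  · exact hnm (h1.symm.trans h2)
  · have := mid_far G (y := y) (by rw [h1]; exact sieved_prime hn)
    omega
  · have := mid_far G (y := y) (by rw [h2]; exact sieved_prime hm)
    omega
  · exact hnm (h1.symm.trans h2)

end Pool.Agent.Lib.MP_65a179_nt
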