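import Mathlib

/-!
# The 6-GP-free process: definitions
-/

namespace Pool.Agent.Lib.MP_65a179_nt

/-- Nontrivial 6-term geometric progressions of positive integers, taken with ratio `r > 1`. -/
def GP6 : Type :=
  {f : Fin 6 → ℕ // (∀ i, 0 < f i) ∧
    ∃ r : ℚ, 1 < r ∧ ∀ i : Fin 5, (f i.succ : ℚ) = r * (f i.castSucc : ℚ)}

/-- The middle term chosen by the coin value `s`: the third term if `s = true`, else the fourth. -/
def chosen (G : GP6) (s : Bool) : ℕ := if s then G.1 2 else G.1 3

/-- The positive integers that are not the chosen middle term of any progression. -/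
def survivors (coin : GP6 → Bool) : Set ℕ := {n | 0 < n ∧ ∀ G : GP6, n ≠ chosen G (coin G)}

end Pool.Agent.Lib.MP_65a179_nt
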