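import Pool.Agent.Lib.MP_65a179_nt.Prob

/-!
# Almost sure gap bound
-/

namespace Pool.Agent.Lib.MP_65a179_nt

open Finset MeasureTheory ProbabilityTheory Filter Asymptotics
open scoped ENNReal

lemma key_ev {c γ : ℝ} (hc : 0 < c) (hγ : γ < 1) :
    ∀ᶠ L : ℝ in atTop,
      Real.log L * (Real.exp 1 * L ^ γ + Real.log L + 3) ≤ c * L := by
  have he := Real.exp_pos 1
  have h1 := (isLittleO_log_rpow_atTop (r := 1 - γ) (by linarith)).bound
    (c := c / 3 / Real.exp 1) (by positivity)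
  have h2 := (isLittleO_log_rpow_atTop (r := 1 / 2) (by norm_num)).bound
    (c := Real.sqrt (c / 3)) (by positivity)
  have h3 := Real.isLittleO_log_id_atTop.bound (c := c / 9) (by positivity)
  filter_upwards [h1, h2, h3, eventually_ge_atTop (1 : ℝ)] with L a1 a2 a3 hL
  have hL0 : 0 < L := by linarith
  have hl : 0 ≤ Real.log L := Real.log_nonneg hL
  rw [Real.norm_of_nonneg hl, Real.norm_of_nonneg (by positivity)] at a1 a2
  rw [Real.norm_of_nonneg hl, id, Real.norm_of_nonneg hL0.le] at a3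
  have b1 : Real.log L * (Real.exp 1 * L ^ γ) ≤ c / 3 * L := by
    calc Real.log L * (Real.exp 1 * L ^ γ)
        ≤ (c / 3 / Real.exp 1 * L ^ (1 - γ)) * (Real.exp 1 * L ^ γ) :=
          mul_le_mul_of_nonneg_right a1 (by positivity)
      _ = c / 3 * (L ^ (1 - γ) * L ^ γ) := by field_simp
      _ = c / 3 * L := by rw [← Real.rpow_add hL0]; simp
  have b2 : Real.log L * Real.log L ≤ c / 3 * L := by
    calc Real.log L * Real.log L
        ≤ (Real.sqrt (c / 3) * L ^ (1 / 2 : ℝ)) * (Real.sqrt (c / 3) * L ^ (1 / 2 : ℝ)) :=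
          mul_le_mul a2 a2 hl (by positivity)
      _ = (Real.sqrt (c / 3) * Real.sqrt (c / 3)) * (L ^ (1 / 2 : ℝ) * L ^ (1 / 2 : ℝ)) := by ring
      _ = c / 3 * L := by
          rw [Real.mul_self_sqrt (by positivity), ← Real.rpow_add hL0]; norm_num
  nlinarith

/-- window parameter -/
noncomputable def win (c : ℝ) (x : ℕ) : ℕ :=
  ⌈Real.exp (c * Real.log x / Real.log (Real.log x))⌉₊

variable {Ω : Type*} [MeasurableSpace Ω] {P : Measure Ω}

lemma gap_ev {X : GP6 → Ω → Bool} (hm : ∀ G, Measurable (X G)) (hi : iIndepFun X P)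
    (hf : ∀ G s, P (X G ⁻¹' {s}) = 1 / 2) {c : ℝ} (hc : Real.log 3 / 3 < c) :
    ∀ᶠ x : ℕ in atTop, P (Gap X x (win c x)) ≤ ENNReal.ofReal (1 / (x : ℝ) ^ 2) := by
  have hl3 : 0 < Real.log 3 := Real.log_pos (by norm_num)
  have hc0 : 0 < c := lt_trans (by positivity) hc
  set γ := Real.log 3 / 3 / c with hγ
  have hγ1 : γ < 1 := by rw [hγ, div_lt_one hc0]; exact hc
  have hγ0 : 0 < γ := by positivity
  have tl : Tendsto (fun x : ℕ => Real.log (x : ℝ)) atTop atTop :=
    Real.tendsto_log_atTop.comp tendsto_natCast_atTop_atTop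
  have e1 := tl.eventually (key_ev hc0 hγ1)
  have e2 := tl.eventually (eventually_ge_atTop (6 : ℝ))
  have e3 := (Real.tendsto_log_atTop.comp tl).eventually (eventually_ge_atTop (2 * c))
  filter_upwards [e1, e2, e3, eventually_ge_atTop 1] with x a1 a2 a3 hx
  simp only [Function.comp] at a3
  set L := Real.log (x : ℝ) with hL
  have hx0 : (0 : ℝ) < x := by exact_mod_cast hx
  have hxL : (x : ℝ) = Real.exp L := (Real.exp_log hx0).symm
  have hL0 : 0 < L := by linarith
  have hll : 0 < Real.log L := by linarith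
  set u := c * L / Real.log L with hu
  have hu1 : Real.exp 1 * L ^ γ + Real.log L + 3 ≤ u := by
    rw [hu, le_div_iff₀ hll]; linarith
  have hu2 : u ≤ L / 2 := by
    rw [hu, div_le_iff₀ hll]; nlinarith
  set y := win c x with hy
  have hy1 : Real.exp u ≤ y := Nat.le_ceil _
  have hy2 : (y : ℝ) < Real.exp u + 1 := Nat.ceil_lt_add_one (Real.exp_pos _).le
  have hD0 : 0 ≤ Real.exp 1 * L ^ γ := by positivity
  have he3 : (8 : ℝ) ≤ Real.exp 3 := by
    have h1 := Real.add_one_le_exp 1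
    have : Real.exp 3 = Real.exp 1 ^ 3 := by rw [← Real.exp_nat_mul]; norm_num
    rw [this]
    calc (8 : ℝ) = 2 ^ 3 := by norm_num
      _ ≤ _ := pow_le_pow_left₀ (by norm_num) (by linarith) 3
  have hy8 : 8 ≤ y := by
    have : (8 : ℝ) ≤ y := he3.trans ((Real.exp_le_exp.2 (by linarith)).trans hy1)
    exact_mod_cast this
  have hyx : 8 * y ≤ x := by
    have h1 : 1 ≤ Real.exp u := Real.one_le_exp (by linarith)
    have h2 : Real.exp u ≤ Real.exp (L / 2) := Real.exp_le_exp.2 hu2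
    have h3 : (16 : ℝ) ≤ Real.exp (L / 2) := by
      have h4 : Real.exp 3 ≤ Real.exp (L / 2) := Real.exp_le_exp.2 (by linarith)
      have h5 : (16 : ℝ) ≤ Real.exp 3 := by
        have h6 := Real.exp_one_gt_d9
        have : Real.exp 3 = Real.exp 1 ^ 3 := by rw [← Real.exp_nat_mul]; norm_num
        rw [this]
        calc (16 : ℝ) ≤ 2.7 ^ 3 := by norm_num
          _ ≤ _ := pow_le_pow_left₀ (by norm_num) (by linarith) 3
      linarith
    have h4 : Real.exp L = Real.exp (L / 2) * Real.exp (L / 2) := by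
      rw [← Real.exp_add]; ring_nf
    have : (8 * y : ℝ) ≤ x := by
      rw [hxL, h4]; nlinarith
    exact_mod_cast this
  have hu0 : 0 < u := by linarith
  have hlogy : u ≤ Real.log y := by
    rw [Real.le_log_iff_exp_le (by positivity)]; exact hy1
  have hD : ∀ n ∈ sieved x y, ((pairs n).card : ℝ) ≤ Real.exp 1 * L ^ γ := by
    intro n hn
    have hn2 := mem_Ioc.1 (mem_filter.1 hn).1
    refine (card_pairs_le (y := y) (by omega) n (by omega)
      (fun p hp hpy => sieved_prime hn p hp hpy)).trans ?_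
    rw [Real.rpow_def_of_pos hL0, ← Real.exp_add]
    apply Real.exp_le_exp.2
    have h1 : Real.log n ≤ L + 1 := by
      have h2 : (n : ℝ) ≤ 2 * x := by exact_mod_cast (by omega : n ≤ 2 * x)
      have h3 : Real.log n ≤ Real.log (2 * x) :=
        Real.log_le_log (by exact_mod_cast (by omega : 0 < n)) h2
      rw [Real.log_mul (by norm_num) hx0.ne'] at h3
      have h4 := Real.log_two_lt_d9
      linarith
    have h2 : Real.log 3 / (3 * Real.log y) ≤ Real.log 3 / (3 * u) :=
      div_le_div_of_nonneg_left hl3.le (by positivity) (by linarith)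
    have h3 : Real.log 3 / (3 * u) = γ * Real.log L / L := by
      rw [hu, hγ]; field_simp
    have h4 : Real.log L ≤ L := (Real.log_le_sub_one_of_pos hL0).trans (by linarith)
    calc Real.log n * (Real.log 3 / (3 * Real.log y))
        ≤ (L + 1) * (γ * Real.log L / L) := by
          rw [← h3]
          exact mul_le_mul h1 h2 (by have : 0 < Real.log y := by linarith
                                     positivity) (by linarith)
      _ = γ * (Real.log L / L) + Real.log L * γ := by field_simp; ring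
      _ ≤ 1 + Real.log L * γ := by
          have h5 : Real.log L / L ≤ 1 := by rw [div_le_one hL0]; exact h4
          have h6 : 0 ≤ Real.log L / L := by positivity
          nlinarith
  refine (gap_prob hm hi hf hy8 hD).trans (ENNReal.ofReal_le_ofReal ?_)
  have h1 : 2 * L ≤ y * Real.exp (-(Real.exp 1 * L ^ γ)) := by
    have h2 : Real.exp (Real.log L + 3) ≤ Real.exp u * Real.exp (-(Real.exp 1 * L ^ γ)) := by
      rw [← Real.exp_add]; exact Real.exp_le_exp.2 (by linarith)
    rw [Real.exp_add, Real.exp_log hL0] at h2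
    have h3 := mul_le_mul_of_nonneg_right hy1 (Real.exp_pos (-(Real.exp 1 * L ^ γ))).le
    nlinarith
  calc Real.exp (-(y * Real.exp (-(Real.exp 1 * L ^ γ)))) ≤ Real.exp (-(2 * L)) :=
        Real.exp_le_exp.2 (by linarith)
    _ = 1 / (x : ℝ) ^ 2 := by
        rw [hxL, ← Real.exp_nat_mul, Real.exp_neg, one_div]; norm_num

lemma ae_no_gap {X : GP6 → Ω → Bool} (hm : ∀ G, Measurable (X G)) (hi : iIndepFun X P)
    (hf : ∀ G s, P (X G ⁻¹' {s}) = 1 / 2) {c : ℝ} (hc : Real.log 3 / 3 < c) :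
    ∀ᵐ ω ∂P, ∀ᶠ x : ℕ in atTop, ω ∉ Gap X x (win c x) := by
  obtain ⟨N, hN⟩ := eventually_atTop.1 (gap_ev hm hi hf hc)
  have hs : ∑' k : ℕ, P (Gap X (k + N) (win c (k + N))) ≠ ∞ := by
    have h1 : Summable (fun k : ℕ => 1 / ((k + N : ℕ) : ℝ) ^ 2) :=
      (summable_nat_add_iff (f := fun k : ℕ => 1 / (k : ℝ) ^ 2) N).2
        (Real.summable_one_div_nat_pow.2 (by norm_num))
    refine ne_top_of_le_ne_top ?_ (ENNReal.tsum_le_tsum fun k => hN (k + N) (by omega))
    rw [← ENNReal.ofReal_tsum_of_nonneg (fun k => by positivity) h1]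
    exact ENNReal.ofReal_ne_top
  filter_upwards [ae_eventually_notMem hs] with ω hω
  obtain ⟨M, hM⟩ := eventually_atTop.1 hω
  refine eventually_atTop.2 ⟨M + N, fun x hx => ?_⟩
  have := hM (x - N) (by omega)
  rwa [show x - N + N = x by omega] at this

lemma bound_of_ev {T : Set ℕ} {c : ℝ} (hc : 0 ≤ c)
    (h : ∀ᶠ x : ℕ in atTop, ∃ t ∈ T, x < t ∧ t ≤ x + 8 * win c x) :
    ∃ C : ℝ, 0 < C ∧ ∀ x : ℕ, 3 ≤ x → ∃ t ∈ T, x < t ∧
      (t : ℝ) - x < C * Real.exp (c * Real.log x / Real.log (Real.log x)) := by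
  obtain ⟨N, hN⟩ := eventually_atTop.1 h
  obtain ⟨t0, ht0, ht1, -⟩ := hN N le_rfl
  refine ⟨17 + t0, by positivity, fun x hx => ?_⟩
  have hx3 : (3 : ℝ) ≤ x := by exact_mod_cast hx
  have hl1 : 1 < Real.log x := by
    rw [Real.lt_log_iff_exp_lt (by linarith)]
    have := Real.exp_one_lt_d9
    linarith
  have hE : 1 ≤ Real.exp (c * Real.log x / Real.log (Real.log x)) :=
    Real.one_le_exp (div_nonneg (mul_nonneg hc (by linarith)) (Real.log_pos hl1).le)
  have ht00 : (0 : ℝ) ≤ t0 := by positivity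
  by_cases hxN : N ≤ x
  · obtain ⟨t, ht, h1, h2⟩ := hN x hxN
    refine ⟨t, ht, h1, ?_⟩
    have h3 : (t : ℝ) ≤ x + 8 * (win c x : ℝ) := by exact_mod_cast h2
    have h4 : (win c x : ℝ) < Real.exp (c * Real.log x / Real.log (Real.log x)) + 1 :=
      Nat.ceil_lt_add_one (Real.exp_pos _).le
    nlinarith
  · refine ⟨t0, ht0, by omega, ?_⟩
    nlinarith

theorem main {X : GP6 → Ω → Bool} (hm : ∀ G, Measurable (X G)) (hi : iIndepFun X P)
    (hf : ∀ G s, P (X G ⁻¹' {s}) = 1 / 2) :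
    ∀ᵐ ω ∂P, ∀ ε : ℝ, 0 < ε → ∃ C : ℝ, 0 < C ∧ ∀ x : ℕ, 3 ≤ x →
      ∃ t ∈ survivors (fun G => X G ω), x < t ∧
        (t : ℝ) - x < C * Real.exp ((Real.log 3 / 3 + ε) * Real.log x / Real.log (Real.log x)) := by
  have hl3 : 0 < Real.log 3 := Real.log_pos (by norm_num)
  have hall : ∀ᵐ ω ∂P, ∀ k : ℕ, ∀ᶠ x : ℕ in atTop,
      ω ∉ Gap X x (win (Real.log 3 / 3 + 1 / ((k : ℝ) + 1)) x) :=
    ae_all_iff.2 fun k => ae_no_gap hm hi hf (by
      have : (0 : ℝ) < 1 / ((k : ℝ) + 1) := by positivity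
      linarith)
  filter_upwards [hall] with ω hω ε hε
  obtain ⟨k, hk⟩ := exists_nat_one_div_lt hε
  obtain ⟨C, hC, h⟩ := bound_of_ev (T := survivors (fun G => X G ω))
    (c := Real.log 3 / 3 + 1 / ((k : ℝ) + 1)) (by positivity) (by
      filter_upwards [hω k] with x hx
      by_contra hcon
      push Not at hcon
      exact hx (fun t h1 h2 h3 => absurd h2 (not_le.2 (hcon t h3 h1))))
  refine ⟨C, hC, fun x hx => ?_⟩
  obtain ⟨t, ht, h1, h2⟩ := h x hx
  refine ⟨t, ht, h1, h2.trans_le (mul_le_mul_of_nonneg_left (Real.exp_le_exp.2 ?_) hC.le)⟩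
  have hx3 : (3 : ℝ) ≤ x := by exact_mod_cast hx
  have hl1 : 1 < Real.log x := by
    rw [Real.lt_log_iff_exp_lt (by linarith)]
    have := Real.exp_one_lt_d9
    linarith
  exact div_le_div_of_nonneg_right (mul_le_mul_of_nonneg_right (by linarith) (by linarith))
    (Real.log_pos hl1).le

end Pool.Agent.Lib.MP_65a179_nt
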