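import Pool.Agent.Lib.MP_65a179_nt.Count

/-!
# Probability that a whole window is removed
-/

namespace Pool.Agent.Lib.MP_65a179_nt

open Finset MeasureTheory ProbabilityTheory
open scoped ENNReal

variable {Ω : Type*} [MeasurableSpace Ω] {P : Measure Ω}

lemma pattern_prob {ι : Type*} {X : ι → Ω → Bool} (hi : iIndepFun X P)
    (hf : ∀ i s, P (X i ⁻¹' {s}) = 1 / 2) (F : Finset ι) (s : ι → Bool) :
    P (⋂ i ∈ F, X i ⁻¹' {s i}) = (1 / 2) ^ F.card := by
  rw [hi.measure_inter_preimage_eq_mul F (sets := fun i => {s i}) (fun _ _ => by measurability)]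
  simp only [hf, prod_const]

lemma blocks_prob {ι κ : Type*} [Fintype κ] {X : ι → Ω → Bool} (hm : ∀ i, Measurable (X i))
    (hi : iIndepFun X P) (hf : ∀ i s, P (X i ⁻¹' {s}) = 1 / 2) (F : κ → Finset ι)
    (hd : ∀ k l, k ≠ l → Disjoint (F k) (F l)) (s : κ → ι → Bool) :
    P (⋂ k, (⋂ i ∈ F k, X i ⁻¹' {s k i})ᶜ) = ∏ k, (1 - (1 / 2 : ℝ≥0∞) ^ (F k).card) := by
  classical
  have := hi.isProbabilityMeasure
  set A : κ → Set Ω := fun k => ⋂ i ∈ F k, X i ⁻¹' {s k i} with hA
  have hAm : ∀ k, MeasurableSet (A k) := fun k =>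
    Finset.measurableSet_biInter _ (fun i _ => hm i (measurableSet_singleton _))
  have hPA : ∀ k, P (A k) = (1 / 2) ^ (F k).card := fun k => pattern_prob hi hf _ _
  have hind : iIndepSet A P := by
    rw [iIndepSet_iff_meas_biInter hAm]
    intro S
    let t : ι → Bool := fun i => if h : ∃ k, i ∈ F k then s h.choose i else true
    have ht : ∀ k, ∀ i ∈ F k, t i = s k i := by
      intro k i hik
      have h : ∃ k, i ∈ F k := ⟨k, hik⟩
      simp only [t, dif_pos h]
      by_cases e : h.choose = k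
      · rw [e]
      · exact absurd hik (disjoint_left.1 (hd _ _ e) h.choose_spec)
    have e1 : (⋂ k ∈ S, A k) = ⋂ i ∈ S.biUnion F, X i ⁻¹' {t i} := by
      ext ω
      simp only [hA, Set.mem_iInter, mem_biUnion, Set.mem_preimage, Set.mem_singleton_iff]
      constructor
      · rintro h i ⟨k, hk, hik⟩
        rw [ht k i hik]; exact h k hk i hik
      · intro h k hk i hik
        rw [← ht k i hik]; exact h i ⟨k, hk, hik⟩
    rw [e1, pattern_prob hi hf, card_biUnion (fun k _ l _ hkl => hd k l hkl)]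
    simp only [hPA]
    rw [prod_pow_eq_pow_sum]
  rw [iIndepSet_iff_iIndep] at hind
  rw [hind.meas_iInter (s := fun k => (A k)ᶜ) (fun k =>
    (MeasurableSpace.measurableSet_generateFrom (Set.mem_singleton _)).compl)]
  refine prod_congr rfl fun k _ => ?_
  rw [prob_compl_eq_one_sub (hAm k), hPA]

/-- the event that nothing in `(x, x + 8 y]` survives. -/
def Gap (X : GP6 → Ω → Bool) (x y : ℕ) : Set Ω :=
  {ω | ∀ t, x < t → t ≤ x + 8 * y → t ∉ survivors (fun G => X G ω)}

lemma gap_prob {X : GP6 → Ω → Bool} (hm : ∀ G, Measurable (X G)) (hi : iIndepFun X P)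
    (hf : ∀ G s, P (X G ⁻¹' {s}) = 1 / 2) {x y : ℕ} (hy : 8 ≤ y) {D : ℝ}
    (hD : ∀ n ∈ sieved x y, ((pairs n).card : ℝ) ≤ D) :
    P (Gap X x y) ≤ ENNReal.ofReal (Real.exp (-(y * Real.exp (-D)))) := by
  classical
  have hpos : ∀ n : sieved x y, (n : ℕ) ≠ 0 := fun n => by
    have := (mem_Ioc.1 (mem_filter.1 n.2).1).1
    omega
  let F : sieved x y → Finset GP6 := fun n => (mid_finite n (hpos n)).toFinset
  let s : sieved x y → GP6 → Bool := fun n G => decide (G.1 3 = n)
  have hd : ∀ k l, k ≠ l → Disjoint (F k) (F l) := by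
    intro k l hkl
    rw [disjoint_left]
    intro G h1 h2
    rw [Set.Finite.mem_toFinset] at h1 h2
    exact mid_disjoint hy k.2 l.2 (fun e => hkl (Subtype.ext e)) G h1 h2
  have hsub : Gap X x y ⊆ ⋂ k, (⋂ i ∈ F k, X i ⁻¹' {s k i})ᶜ := by
    intro ω hω
    rw [Set.mem_iInter]
    intro k hk
    have hk2 := mem_Ioc.1 (mem_filter.1 k.2).1
    apply hω k hk2.1 hk2.2
    refine ⟨Nat.pos_of_ne_zero (hpos k), fun G hG => ?_⟩
    have hlt := mid_ne G
    have hmem : G ∈ F k := by
      rw [Set.Finite.mem_toFinset]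
      unfold chosen at hG
      split_ifs at hG
      · exact Or.inl hG.symm
      · exact Or.inr hG.symm
    have h3 : X G ω = s k G := by
      simp only [Set.mem_iInter] at hk
      exact hk G hmem
    unfold chosen at hG
    by_cases e : G.1 3 = k
    · have : X G ω = true := by rw [h3]; simp [s, e]
      simp only [this, if_true] at hG
      omega
    · have : X G ω = false := by rw [h3]; simp [s, e]
      simp only [this] at hG
      exact e (by simpa using hG.symm)
  refine (measure_mono hsub).trans ?_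
  rw [blocks_prob hm hi hf F hd s]
  have hterm : ∀ k : sieved x y, (1 - (1 / 2 : ℝ≥0∞) ^ (F k).card) ≤
      ENNReal.ofReal (Real.exp (-Real.exp (-D))) := by
    intro k
    have h1 : ((F k).card : ℝ) ≤ D :=
      le_trans (by exact_mod_cast mid_card k (hpos k)) (hD k k.2)
    have h2 : Real.exp (-D) ≤ (1 / 2 : ℝ) ^ (F k).card := by
      calc Real.exp (-D) ≤ Real.exp (((F k).card : ℕ) * (-1)) := Real.exp_le_exp.2 (by linarith)
        _ = Real.exp (-1) ^ (F k).card := Real.exp_nat_mul _ _
        _ ≤ _ := by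
          refine pow_le_pow_left₀ (Real.exp_pos _).le ?_ _
          rw [Real.exp_neg, one_div]
          refine inv_anti₀ (by norm_num) ?_
          have := Real.add_one_le_exp 1
          linarith
    have h3 : (1 / 2 : ℝ≥0∞) ^ (F k).card = ENNReal.ofReal ((1 / 2 : ℝ) ^ (F k).card) := by
      rw [ENNReal.ofReal_pow (by norm_num), ENNReal.ofReal_div_of_pos (by norm_num)]
      simp
    rw [h3, ← ENNReal.ofReal_one, ← ENNReal.ofReal_sub _ (by positivity)]
    apply ENNReal.ofReal_le_ofReal
    have := Real.add_one_le_exp (-Real.exp (-D))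
    linarith
  calc ∏ k : sieved x y, (1 - (1 / 2 : ℝ≥0∞) ^ (F k).card)
      ≤ ∏ _k : sieved x y, ENNReal.ofReal (Real.exp (-Real.exp (-D))) :=
        prod_le_prod' fun k _ => hterm k
    _ = ENNReal.ofReal (Real.exp (-Real.exp (-D)) ^ (sieved x y).card) := by
        rw [prod_const, card_univ, Fintype.card_coe, ENNReal.ofReal_pow (Real.exp_pos _).le]
    _ ≤ _ := by
        apply ENNReal.ofReal_le_ofReal
        rw [← Real.exp_nat_mul]
        apply Real.exp_le_exp.2
        have h1 : (y : ℝ) ≤ (sieved x y).card := by exact_mod_cast card_sieved x y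
        have h2 := Real.exp_pos (-D)
        nlinarith

end Pool.Agent.Lib.MP_65a179_nt
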